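import Pool.Agent.Helper37.OF.St

/-!
# Project OF, module LIN: finite free products of copies of PGL(2,k)
-/

set_option autoImplicit false

namespace Pool.Agent.Helper3.OF

open Pool.Agent.Helper37.OF Monoid Pool.Agent.Helper4.FS

universe u v w x

section

variable {G : Type w} [Group G]

/-- change of the index set -/
private def re {I J : Type x} (e : I → J) : Fp G I →* Fp G J :=
  CoprodI.lift fun i => CoprodI.of (M := fun _ : J => G) (i := e i)

private theorem re_of {I J : Type x} (e : I → J) (i : I) (g : G) : re e (ofi i g) = ofi (e i) g := by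
  unfold re ofi
  rw [CoprodI.lift_of]

private theorem re_inj {I J : Type x} (e : I → J) (f : J → I) (h : ∀ i, f (e i) = i) :
    Function.Injective (re (G := G) e) := by
  have h1 : ∀ w : Fp G I, re f (re e w) = w := fun w =>
    hom_ext' ((re f).comp (re e)) (MonoidHom.id _) (fun i g => by
      rw [MonoidHom.comp_apply, re_of, re_of, h]
      rfl) w
  exact Function.LeftInverse.injective h1

private def ta {I : Type x} : (o : Option I) → G →* Coprod (Fp G I) G
  | none => Coprod.inr
  | some i => Coprod.inl.comp (CoprodI.of (M := fun _ : I => G) (i := i))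

private def th {I : Type x} : Fp G (Option I) →* Coprod (Fp G I) G :=
  CoprodI.lift fun o => ta o

private def th' {I : Type x} : Coprod (Fp G I) G →* Fp G (Option I) :=
  Coprod.lift (re some) (CoprodI.of (M := fun _ : Option I => G) (i := none))

private theorem th_inj {I : Type x} : Function.Injective (th (G := G) (I := I)) := by
  have h1 : ∀ w : Fp G (Option I), th' (th w) = w := fun w =>
    hom_ext' (th'.comp th) (MonoidHom.id _) (fun o g => by
      rw [MonoidHom.comp_apply]
      cases o with
      | none =>
        unfold th ofi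
        rw [CoprodI.lift_of]
        change th' (Coprod.inr g) = _
        unfold th'
        rw [Coprod.lift_apply_inr]
        rfl
      | some i =>
        unfold th ofi
        rw [CoprodI.lift_of]
        change th' (Coprod.inl (ofi i g)) = _
        unfold th'
        rw [Coprod.lift_apply_inl, re_of]
        rfl) w
  exact Function.LeftInverse.injective h1

end

theorem hLIN (hE2 : StE2.{max x w, w, w}) : StLIN.{w, x} := by
  intro k _ I _
  refine Finite.induction_empty_option (P := fun I : Type x =>
    ∃ (k' : Type w) (_ : Field k') (φ : Fp (P2 k) I →* P2 k') (ψ : P2 k →* P2 k'),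
      Function.Injective φ ∧ Function.Injective ψ) ?_ ?_ ?_ I
  · rintro α β e ⟨k', hk', φ, ψ, h1, h2⟩
    refine ⟨k', hk', φ.comp (re e.symm), ψ, ?_, h2⟩
    rw [MonoidHom.coe_comp]
    exact h1.comp (re_inj e.symm e (fun i => e.apply_symm_apply i))
  · refine ⟨k, inferInstance, 1, MonoidHom.id _, ?_, Function.injective_id⟩
    have h1 : ∀ w : Fp (P2 k) PEmpty.{x + 1}, w = 1 := by
      intro w
      induction w using fp_induction with
      | h1 => rfl
      | hof i g => exact i.elim
      | hmul a b ha hb => rw [ha, hb, mul_one]
    intro a b _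
    rw [h1 a, h1 b]
  · rintro α _ ⟨k₁, hk₁, φ₀, ψ₀, h1, h2⟩
    obtain ⟨k', hk', χ, _, h3, _⟩ := hE2 k₁ (Fp (P2 k) α) (P2 k) φ₀ ψ₀ h1 h2
    refine ⟨k', hk', χ.comp th, χ.comp Coprod.inr, ?_, ?_⟩
    · rw [MonoidHom.coe_comp]
      exact h3.comp th_inj
    · rw [MonoidHom.coe_comp]
      exact h3.comp Coprod.inr_injective

end Pool.Agent.Helper3.OF
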